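import Pool.Agent.Helper20.EQ.St2
import Pool.Agent.Helper9.RG.M_YC

/-!
# Project EQ, module CEY: the chord average is bounded by a cell average
-/

set_option autoImplicit false

open MeasureTheory Set Filter Topology
open scoped ENNReal RealInnerProductSpace

namespace Pool.Agent.Helper85.EQ

open Pool.Agent.Helper20.RG Pool.Agent.Helper20.EQ
open Pool.Agent.Helper68.LM (Pl BB Bd Av HL ft fm DQ)
open Pool.Agent.Helper9.RG (av_bx_eq av_sg_eq shift_bound continuous_av_bx av_bx_bd bb_integrable)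

/-- the weight of the point `y` in the chord average -/
noncomputable def Wg (s ρ T : ℝ) (z y : Pl) (t : ℝ) : ℝ :=
  (Sq (0 : Pl) (1 / 2)).indicator (fun _ => (1 : ℝ)) (ρ⁻¹ • (z - (T * t) • E s - y))

theorem E_zero (hPT : StPT) (s : ℝ) : (E s) 0 = 1 ∧ (E s) 1 = s := hPT.1 1 s

theorem Wg_nonneg (s ρ T : ℝ) (z y : Pl) (t : ℝ) : 0 ≤ Wg s ρ T z y t :=
  indicator_nonneg (fun _ _ => zero_le_one) _

theorem Wg_le_one (s ρ T : ℝ) (z y : Pl) (t : ℝ) : Wg s ρ T z y t ≤ 1 :=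
  indicator_le_self' (fun _ _ => zero_le_one) _

theorem mem_of_Wg (hPT : StPT) (s ρ T : ℝ) (hρ : 0 < ρ) (z y : Pl) (t : ℝ)
    (h : Wg s ρ T z y t ≠ 0) :
    |z 0 - T * t - y 0| ≤ ρ / 2 ∧ |z 1 - T * t * s - y 1| ≤ ρ / 2 := by
  have h1 : ρ⁻¹ • (z - (T * t) • E s - y) ∈ Sq (0 : Pl) (1 / 2) := by
    by_contra hn
    exact h (indicator_of_notMem hn _)
  obtain ⟨h2, h3⟩ := h1
  have e0 : (ρ⁻¹ • (z - (T * t) • E s - y)) 0 - (0 : Pl) 0 = ρ⁻¹ * (z 0 - T * t - y 0) := by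
    simp only [PiLp.smul_apply, PiLp.sub_apply, PiLp.zero_apply, smul_eq_mul, (E_zero hPT s).1]
    ring
  have e1 : (ρ⁻¹ • (z - (T * t) • E s - y)) 1 - (0 : Pl) 1 = ρ⁻¹ * (z 1 - T * t * s - y 1) := by
    simp only [PiLp.smul_apply, PiLp.sub_apply, PiLp.zero_apply, smul_eq_mul, (E_zero hPT s).2]
    ring
  rw [e0, abs_mul, abs_of_pos (inv_pos.2 hρ), inv_mul_le_iff₀ hρ] at h2
  rw [e1, abs_mul, abs_of_pos (inv_pos.2 hρ), inv_mul_le_iff₀ hρ] at h3
  constructor
  · linarith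
  · linarith

theorem Wg_meas (s ρ T : ℝ) (z : Pl) (hS : MeasurableSet (Sq (0 : Pl) (1 / 2))) :
    Measurable (fun p : ℝ × Pl => Wg s ρ T z p.2 p.1) := by
  have hm : Measurable (fun p : ℝ × Pl => ρ⁻¹ • (z - (T * p.1) • E s - p.2)) := by fun_prop
  exact (measurable_const.indicator hS).comp hm

theorem Wg_int_le (hPT : StPT) (s ρ T : ℝ) (hρ : 0 < ρ) (hT : 0 < T) (z y : Pl) :
    ∫ t in Icc (-(1 / 2) : ℝ) (1 / 2), Wg s ρ T z y t ≤ ρ / T := by
  set J : Set ℝ := Icc ((z 0 - y 0 - ρ / 2) / T) ((z 0 - y 0 + ρ / 2) / T) with hJ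
  have hle : ∀ t, Wg s ρ T z y t ≤ J.indicator (fun _ => (1 : ℝ)) t := by
    intro t
    by_cases h : Wg s ρ T z y t = 0
    · rw [h]
      exact indicator_nonneg (fun _ _ => zero_le_one) _
    · have h1 := (mem_of_Wg hPT s ρ T hρ z y t h).1
      rw [abs_le] at h1
      have hm : t ∈ J := by
        constructor
        · rw [div_le_iff₀ hT]
          linarith [h1.2]
        · rw [le_div_iff₀ hT]
          linarith [h1.1]
      rw [indicator_of_mem hm]
      exact Wg_le_one s ρ T z y t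
  have hJi : Integrable (J.indicator (fun _ => (1 : ℝ))) := by
    refine (integrable_indicator_iff measurableSet_Icc).2 ?_
    exact continuousOn_const.integrableOn_Icc
  calc ∫ t in Icc (-(1 / 2) : ℝ) (1 / 2), Wg s ρ T z y t
      ≤ ∫ t in Icc (-(1 / 2) : ℝ) (1 / 2), J.indicator (fun _ => (1 : ℝ)) t :=
        integral_mono_of_nonneg (ae_of_all _ fun t => Wg_nonneg s ρ T z y t) hJi.integrableOn
          (ae_of_all _ hle)
    _ ≤ ∫ t, J.indicator (fun _ => (1 : ℝ)) t :=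
        setIntegral_le_integral hJi (ae_of_all _ fun t => indicator_nonneg (fun _ _ => zero_le_one) _)
    _ = ρ / T := by
        rw [integral_indicator measurableSet_Icc, setIntegral_const, smul_eq_mul, mul_one,
          Real.volume_real_Icc_of_le]
        · field_simp
          ring
        · gcongr
          linarith

theorem Wg_int_zero (hPT : StPT) (s ρ T : ℝ) (hρ : 0 < ρ) (z y : Pl) (R₁ R₂ : ℝ) (hs : |s| ≤ 1)
    (hT : 0 < T) (h1 : T / 2 + ρ / 2 ≤ R₁) (h2 : ρ ≤ R₂)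
    (hy : ¬ (|y 0 - z 0| ≤ R₁ ∧ |pr s (y - z)| ≤ R₂)) :
    ∫ t in Icc (-(1 / 2) : ℝ) (1 / 2), Wg s ρ T z y t = 0 := by
  have h0 : ∀ t ∈ Icc (-(1 / 2) : ℝ) (1 / 2), Wg s ρ T z y t = 0 := by
    intro t ht
    by_contra hn
    apply hy
    obtain ⟨a0, a1⟩ := mem_of_Wg hPT s ρ T hρ z y t hn
    have ht' : |t| ≤ 1 / 2 := abs_le.2 ht
    constructor
    · have e : y 0 - z 0 = -(z 0 - T * t - y 0) - T * t := by ring
      rw [e]
      calc |-(z 0 - T * t - y 0) - T * t| ≤ |-(z 0 - T * t - y 0)| + |T * t| := abs_sub _ _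
        _ ≤ ρ / 2 + T * (1 / 2) := by
            rw [abs_neg, abs_mul, abs_of_pos hT]
            gcongr
        _ ≤ R₁ := by linarith
    · have e : pr s (y - z) = s * (z 0 - T * t - y 0) - (z 1 - T * t * s - y 1) := by
        unfold pr
        simp only [PiLp.sub_apply]
        ring
      rw [e]
      calc |s * (z 0 - T * t - y 0) - (z 1 - T * t * s - y 1)|
          ≤ |s * (z 0 - T * t - y 0)| + |z 1 - T * t * s - y 1| := abs_sub _ _
        _ ≤ 1 * (ρ / 2) + ρ / 2 := by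
            rw [abs_mul]
            gcongr
        _ ≤ R₂ := by linarith
  rw [setIntegral_congr_fun measurableSet_Icc h0]
  simp

theorem hCEY (hPT : StPT) (hCEF : StCEF) (hYC : StYC) (_hYB : StYB) (hMEA : StMEA) : StCEY := by
  intro s c m k g hs hg hg0
  have hS : MeasurableSet (Sq (0 : Pl) (1 / 2)) := (hPT.2.2.2.2.2.2.2 0 (1 / 2) (by norm_num)).1
  have hbx : bx univ = 1 := hMEA.1.2.1
  obtain ⟨K, hK, _⟩ := hg.2
  have hgi : Integrable g := bb_integrable hg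
  set ρ : ℝ := 2 * (2 : ℝ) ^ (k - (m : ℤ)) with hρdef
  have hρ : 0 < ρ := by positivity
  have hfc : Continuous (Av bx ρ g) := continuous_av_bx ρ hρ g hg hS
  set T : ℝ := (2 : ℝ) ^ k * (2 : ℝ) ^ 0 with hTdef
  have hTk : T = (2 : ℝ) ^ k := by rw [hTdef, pow_zero, mul_one]
  have hT : 0 < T := by rw [hTk]; positivity
  have hY : ∀ x : Pl, Y s c m ((2 : ℝ) ^ 0) k g x =
      ∫ r in (-(1 / 2) : ℝ)..(1 / 2), Av bx ρ g (x - (2 : ℝ) ^ k • c - (T * r) • E s) := by
    intro x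
    have e1 : Y s c m ((2 : ℝ) ^ 0) k g x = Av (sg s) T (Av bx ρ g) (x - (2 : ℝ) ^ k • c) := rfl
    rw [e1, av_sg_eq s T _ hfc]
  refine ⟨?_, ?_, (hYC s c m m ((2 : ℝ) ^ 0) k g hs (by norm_num) hg).1⟩
  · intro x
    set z : Pl := x - (2 : ℝ) ^ k • c with hz
    obtain ⟨hCm, hCv, hCA⟩ := hCEF s 4 6 k m z hs (by norm_num) (by norm_num)
    rw [hCA g hg, hY x, ← hz]
    set Q : Set Pl := Cel s 4 6 k m z with hQ
    -- change of variables
    have e1 : ∀ r : ℝ, Av bx ρ g (z - (T * r) • E s) =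
        |(ρ ^ (Module.finrank ℝ Pl))⁻¹| * ∫ y : Pl, Wg s ρ T z y r * g y := by
      intro r
      exact av_bx_eq ρ hρ g hS _
    have hfr : |(ρ ^ (Module.finrank ℝ Pl))⁻¹| = (ρ ^ 2)⁻¹ := by
      rw [finrank_euclideanSpace_fin, abs_of_pos (by positivity)]
    have e2 : ∫ r in (-(1 / 2) : ℝ)..(1 / 2), Av bx ρ g (z - (T * r) • E s) =
        (ρ ^ 2)⁻¹ * ∫ r in Icc (-(1 / 2) : ℝ) (1 / 2), ∫ y : Pl, Wg s ρ T z y r * g y := by
      rw [intervalIntegral.integral_of_le (by norm_num), ← integral_Icc_eq_integral_Ioc,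
        ← integral_const_mul]
      apply integral_congr_ae
      exact ae_of_all _ fun r => by
        show Av bx ρ g (z - (T * r) • E s) = (ρ ^ 2)⁻¹ * ∫ y : Pl, Wg s ρ T z y r * g y
        rw [e1 r, hfr]
    have hint : Integrable (Function.uncurry fun (r : ℝ) (y : Pl) => Wg s ρ T z y r * g y)
        ((volume.restrict (Icc (-(1 / 2) : ℝ) (1 / 2))).prod volume) := by
      refine Integrable.mono' (hgi.norm.comp_snd _) ?_ ?_
      · exact ((Wg_meas s ρ T z hS).mul (hg.1.comp measurable_snd)).aestronglyMeasurable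
      · refine ae_of_all _ fun p => ?_
        show ‖Wg s ρ T z p.2 p.1 * g p.2‖ ≤ ‖g p.2‖
        rw [norm_mul]
        refine mul_le_of_le_one_left (norm_nonneg _) ?_
        rw [Real.norm_eq_abs, abs_of_nonneg (Wg_nonneg _ _ _ _ _ _)]
        exact Wg_le_one _ _ _ _ _ _
    have e3 : ∫ r in Icc (-(1 / 2) : ℝ) (1 / 2), ∫ y : Pl, Wg s ρ T z y r * g y =
        ∫ y : Pl, ∫ r in Icc (-(1 / 2) : ℝ) (1 / 2), Wg s ρ T z y r * g y :=
      integral_integral_swap hint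
    have e4 : ∫ y : Pl, ∫ r in Icc (-(1 / 2) : ℝ) (1 / 2), Wg s ρ T z y r * g y ≤
        ∫ y : Pl, ρ / T * Q.indicator g y := by
      refine integral_mono_of_nonneg ?_ ?_ ?_
      · exact ae_of_all _ fun y => integral_nonneg fun r =>
          mul_nonneg (Wg_nonneg _ _ _ _ _ _) (hg0 y)
      · exact (hgi.indicator hCm).const_mul _
      · refine ae_of_all _ fun y => ?_
        show ∫ r in Icc (-(1 / 2) : ℝ) (1 / 2), Wg s ρ T z y r * g y ≤ ρ / T * Q.indicator g y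
        rw [integral_mul_const]
        by_cases hy : y ∈ Q
        · rw [indicator_of_mem hy]
          exact mul_le_mul_of_nonneg_right (Wg_int_le hPT s ρ T hρ hT z y) (hg0 y)
        · rw [indicator_of_notMem hy, mul_zero]
          have hle : (2 : ℝ) ^ (k - (m : ℤ)) ≤ (2 : ℝ) ^ k :=
            zpow_le_zpow_right₀ (by norm_num) (by linarith [Int.natCast_nonneg m])
          have hpk : (0 : ℝ) < (2 : ℝ) ^ (k - (m : ℤ)) := by positivity
          have := Wg_int_zero hPT s ρ T hρ z y (4 * (2 : ℝ) ^ k / 2)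
            (6 * (2 : ℝ) ^ (k - (m : ℤ)) / 2) hs hT (by rw [hTk, hρdef]; linarith)
            (by rw [hρdef]; linarith) hy
          rw [this, zero_mul]
    rw [integral_const_mul, integral_indicator hCm] at e4
    have hQ0 : 0 ≤ ∫ y in Q, g y := integral_nonneg fun y => hg0 y
    rw [e2, e3]
    have hA : (0 : ℝ) < (2 : ℝ) ^ k := by positivity
    have hB : (0 : ℝ) < (2 : ℝ) ^ (k - (m : ℤ)) := by positivity
    calc (ρ ^ 2)⁻¹ * ∫ y : Pl, ∫ r in Icc (-(1 / 2) : ℝ) (1 / 2), Wg s ρ T z y r * g y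
        ≤ (ρ ^ 2)⁻¹ * (ρ / T * ∫ y in Q, g y) := by gcongr
      _ = 1 / 2 * (1 / ((2 : ℝ) ^ k * (2 : ℝ) ^ (k - (m : ℤ))) * ∫ y in Q, g y) := by
          rw [hTk, hρdef]
          field_simp
      _ ≤ 1 * (1 / ((2 : ℝ) ^ k * (2 : ℝ) ^ (k - (m : ℤ))) * ∫ y in Q, g y) := by
          have : 0 ≤ 1 / ((2 : ℝ) ^ k * (2 : ℝ) ^ (k - (m : ℤ))) * ∫ y in Q, g y := by positivity
          linarith
      _ = 24 * (1 / (4 * 6 * (2 : ℝ) ^ k * (2 : ℝ) ^ (k - (m : ℤ))) * ∫ y in Q, g y) := by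
          field_simp
          ring
  · intro hg1 x lam
    have h01 : ∀ z : Pl, |Av bx ρ g z| ≤ 1 :=
      av_bx_bd ρ g 1 (fun y => by rw [abs_of_nonneg (hg0 y)]; exact hg1 y) hbx
    set φ : ℝ → ℝ := fun r => Av bx ρ g (x - (2 : ℝ) ^ k • c - (T * r) • E s) with hφ
    have hφc : Continuous φ := by
      rw [hφ]
      fun_prop
    have hsh := shift_bound φ hφc (fun r => h01 _) (lam / T)
    have e2 : Y s c m ((2 : ℝ) ^ 0) k g (x + lam • E s) =
        ∫ r in (-(1 / 2) : ℝ)..(1 / 2), φ (r - lam / T) := by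
      rw [hY]
      apply intervalIntegral.integral_congr
      intro r _
      simp only [hφ]
      congr 1
      have e3 : T * (r - lam / T) = T * r - lam := by
        field_simp
      rw [e3, sub_smul]
      abel
    rw [e2, hY x]
    refine hsh.trans (le_of_eq ?_)
    rw [abs_div, abs_of_pos hT, hTk, mul_div_assoc]

end Pool.Agent.Helper85.EQ
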