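import Pool.Agent.Helper20.EQ.St4

/-!
# Project EQ, module HAS: many hits in one class, summation over the levels
-/

set_option autoImplicit false

open MeasureTheory Set Filter Topology
open scoped ENNReal RealInnerProductSpace

namespace Pool.Agent.Helper85.EQ

open Pool.Agent.Helper20.RG Pool.Agent.Helper20.EQ
open Pool.Agent.Helper68.LM (Pl BB Bd Av HL ft fm DQ)
open Pool.Agent.Helper68.EP (elt GapP)

theorem tsum_ite_le (M : ℝ) (hM : 0 ≤ M) (c : ℝ≥0∞) :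
    ∑' u : ℕ, (if 2 ≤ u ∧ (u : ℝ) ≤ M then c else 0) ≤ ENNReal.ofReal M * c := by
  have h0 : ∀ u ∉ Finset.Icc 1 ⌊M⌋₊, (if 2 ≤ u ∧ (u : ℝ) ≤ M then c else 0) = 0 := by
    intro u hu
    rw [if_neg]
    rintro ⟨h2, h3⟩
    exact hu (Finset.mem_Icc.2 ⟨by omega, Nat.le_floor h3⟩)
  rw [tsum_eq_sum h0]
  calc ∑ u ∈ Finset.Icc 1 ⌊M⌋₊, (if 2 ≤ u ∧ (u : ℝ) ≤ M then c else 0)
      ≤ ∑ u ∈ Finset.Icc 1 ⌊M⌋₊, c := by
        refine Finset.sum_le_sum fun u _ => ?_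
        split_ifs
        · exact le_refl _
        · exact zero_le
    _ = (⌊M⌋₊ : ℝ≥0∞) * c := by
        rw [Finset.sum_const, Nat.card_Icc, nsmul_eq_mul]
        simp
    _ ≤ ENNReal.ofReal M * c := by
        gcongr
        rw [← ENNReal.ofReal_natCast]
        exact ENNReal.ofReal_le_ofReal (Nat.floor_le hM)

theorem hHAS (hLOS : StLOS) (hFWS : StFWS) (hGDL : StGDL) (hRIX : StRIX) : StHAS := by
  intro φ τ A p c hG hA hGP hp2 hp3 Cρ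
  have he0 : 0 < e1 p := by unfold e1; linarith
  have he1 : e1 p ≤ 1 / 100 := by unfold e1; linarith
  have hd0 : 0 < dl p := by unfold dl; linarith
  have hde : dl p = e1 p / 20 := by unfold dl e1; ring
  obtain ⟨C₁, t₁, hC₁, h1⟩ := hLOS φ τ A p c hG hA hGP hp2 hp3 Cρ
  obtain ⟨C₂, t₂, hC₂, h2⟩ := hFWS φ τ A p c hG hA hGP hp2 hp3 (e1 p) (dl p) Cρ he0 he1 hd0
  refine ⟨2 * C₁ + C₂, max t₁ t₂, by linarith, ?_⟩
  intro R₀ t ρ f hR ht hρ hf hf0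
  have ht1 : t₁ ≤ t := (le_max_left _ _).trans ht
  have ht2 : t₂ ≤ t := (le_max_right _ _).trans ht
  set IP : ℝ≥0∞ := ∫⁻ x, ENNReal.ofReal (f x) ^ p with hIP
  set X : ℕ → (Pl → ℝ) → ℝ≥0∞ := fun u g =>
    if 2 ≤ u ∧ (u : ℝ) ≤ (2 : ℝ) ^ (dl p * t) then
      ENNReal.ofReal (C₁ * (2 : ℝ) ^ (tg p u t ρ + dl p * t)) * ∫⁻ x, ‖g x‖ₑ ^ 2 else 0 with hX
  set F : ℤ → ℕ → ℝ≥0∞ := fun l u => if (2 : ℝ) ^ (dl p * t) < u then
        ∑' k : ℤ, volume {x | Gd R₀ l f x ∧ (2 : ℝ) ^ ((1 - e1 p) * t) ≤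
          ((Hh c φ τ u ρ k (lev f (l - t + u + ρ)) x).ncard : ℝ)} else 0 with hF
  have hterm : ∀ (l : ℤ) (u : ℕ), (if 2 ≤ u then
        ∑' k : ℤ, volume {x | Gd R₀ l f x ∧ (2 : ℝ) ^ ((1 - e1 p) * t) ≤
          ((Hh c φ τ u ρ k (lev f (l - t + u + ρ)) x).ncard : ℝ)} else 0) ≤
      F l u + X u (lev f (l - t + u + ρ)) := by
    intro l u
    by_cases hu : 2 ≤ u
    · rw [if_pos hu]
      by_cases hu2 : (2 : ℝ) ^ (dl p * t) < u
      · refine le_trans (le_of_eq ?_) le_self_add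
        rw [hF]
        simp only [if_pos hu2]
      · rw [not_lt] at hu2
        refine le_trans ?_ le_add_self
        rw [hX]
        simp only [if_pos (show 2 ≤ u ∧ (u : ℝ) ≤ (2 : ℝ) ^ (dl p * t) from ⟨hu, hu2⟩)]
        have hg := hGDL.1 f (l - t + u + ρ) hf hf0
        refine h1 u t ρ (lev f (l - t + u + ρ)) {x | Gd R₀ l f x} ht1 hu hu2 hρ hg.1 hg.2 ?_
        intro x hx
        have h3 := hGDL.2.1 C₁ R₀ f l (l - t + u + ρ) x hC₁ (by linarith) hf hf0 hx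
        have e : l - (l - (t : ℤ) + u + ρ) = (t : ℤ) - u - ρ := by ring
        rwa [e] at h3
    · rw [if_neg hu]
      exact zero_le
  have hFs : ∑' l : ℤ, ENNReal.ofReal ((2 : ℝ) ^ (p * l)) * ∑' u : ℕ, F l u ≤
      ENNReal.ofReal (C₂ * (2 : ℝ) ^ (-((t : ℝ) / 16))) * IP :=
    h2 R₀ t ρ f (by linarith) ht2 hρ hf hf0
  have hXs : ∑' l : ℤ, ENNReal.ofReal ((2 : ℝ) ^ (p * l)) * ∑' u : ℕ, X u (lev f (l - t + u + ρ)) ≤
      ENNReal.ofReal (C₁ * (2 : ℝ) ^ (-(e1 p / 2 * t))) * IP := by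
    set B : ℝ := (2 : ℝ) ^ (dl p * t) * (C₁ * (2 : ℝ) ^ (-(p * ((t : ℝ) - ρ)) - e1 p * t + dl p * t)) with hB
    have hB0 : 0 ≤ B := by positivity
    have hXB : ∀ g : Pl → ℝ, BB g → (∀ x, 0 ≤ g x ∧ g x ≤ 1) →
        ∑' u : ℕ, ENNReal.ofReal ((2 : ℝ) ^ (-(p * u))) * X u g ≤ ENNReal.ofReal B * ∫⁻ x, ‖g x‖ₑ ^ 2 := by
      intro g _ _
      have e1' : ∀ u : ℕ, ENNReal.ofReal ((2 : ℝ) ^ (-(p * u))) * X u g =
          if 2 ≤ u ∧ (u : ℝ) ≤ (2 : ℝ) ^ (dl p * t) then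
            ENNReal.ofReal (C₁ * (2 : ℝ) ^ (-(p * ((t : ℝ) - ρ)) - e1 p * t + dl p * t)) *
              ∫⁻ x, ‖g x‖ₑ ^ 2 else 0 := by
        intro u
        rw [hX]
        by_cases hu : 2 ≤ u ∧ (u : ℝ) ≤ (2 : ℝ) ^ (dl p * t)
        · simp only [if_pos hu]
          rw [← mul_assoc, ← ENNReal.ofReal_mul (by positivity)]
          congr 2
          rw [← mul_assoc, mul_comm _ C₁, mul_assoc, ← Real.rpow_add (by norm_num)]
          congr 2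
          unfold tg
          ring
        · simp only [if_neg hu, mul_zero]
      rw [tsum_congr e1']
      refine (tsum_ite_le _ (by positivity) _).trans (le_of_eq ?_)
      rw [← mul_assoc, ← ENNReal.ofReal_mul (by positivity), hB]
    have h3 := hRIX p B X (by linarith) hB0 hXB f t ρ hf hf0
    refine h3.trans ?_
    refine mul_le_mul_left (ENNReal.ofReal_le_ofReal ?_) _
    rw [hB]
    calc (2 : ℝ) ^ (p * (((t : ℤ) : ℝ) - ρ)) *
          ((2 : ℝ) ^ (dl p * t) * (C₁ * (2 : ℝ) ^ (-(p * ((t : ℝ) - ρ)) - e1 p * t + dl p * t)))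
        = C₁ * ((2 : ℝ) ^ (p * ((t : ℝ) - ρ)) * ((2 : ℝ) ^ (dl p * t) *
          (2 : ℝ) ^ (-(p * ((t : ℝ) - ρ)) - e1 p * t + dl p * t))) := by
          push_cast
          ring
      _ = C₁ * (2 : ℝ) ^ (p * ((t : ℝ) - ρ) + (dl p * t +
          (-(p * ((t : ℝ) - ρ)) - e1 p * t + dl p * t))) := by
          rw [← Real.rpow_add (by norm_num), ← Real.rpow_add (by norm_num)]
      _ ≤ C₁ * (2 : ℝ) ^ (-(e1 p / 2 * t)) := by
          have ht0 : (0 : ℝ) ≤ t := Nat.cast_nonneg t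
          refine mul_le_mul_of_nonneg_left ?_ (by linarith)
          refine Real.rpow_le_rpow_of_exponent_le (by norm_num) ?_
          rw [hde]
          nlinarith [mul_nonneg he0.le ht0]
  calc ∑' l : ℤ, ENNReal.ofReal ((2 : ℝ) ^ (p * l)) * ∑' u : ℕ, (if 2 ≤ u then
        ∑' k : ℤ, volume {x | Gd R₀ l f x ∧ (2 : ℝ) ^ ((1 - e1 p) * t) ≤
          ((Hh c φ τ u ρ k (lev f (l - t + u + ρ)) x).ncard : ℝ)} else 0)
      ≤ ∑' l : ℤ, ENNReal.ofReal ((2 : ℝ) ^ (p * l)) *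
          ∑' u : ℕ, (F l u + X u (lev f (l - t + u + ρ))) := by
        refine ENNReal.tsum_le_tsum fun l => ?_
        gcongr with u
        exact hterm l u
    _ = (∑' l : ℤ, ENNReal.ofReal ((2 : ℝ) ^ (p * l)) * ∑' u : ℕ, F l u) +
        ∑' l : ℤ, ENNReal.ofReal ((2 : ℝ) ^ (p * l)) * ∑' u : ℕ, X u (lev f (l - t + u + ρ)) := by
        rw [← ENNReal.tsum_add]
        refine tsum_congr fun l => ?_
        rw [ENNReal.tsum_add, mul_add]
    _ ≤ ENNReal.ofReal (C₂ * (2 : ℝ) ^ (-((t : ℝ) / 16))) * IP +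
        ENNReal.ofReal (C₁ * (2 : ℝ) ^ (-(e1 p / 2 * t))) * IP := add_le_add hFs hXs
    _ = ENNReal.ofReal (C₂ * (2 : ℝ) ^ (-((t : ℝ) / 16)) + C₁ * (2 : ℝ) ^ (-(e1 p / 2 * t))) * IP := by
        rw [← add_mul, ENNReal.ofReal_add (by positivity) (by positivity)]
    _ ≤ ENNReal.ofReal ((2 * C₁ + C₂) * (2 : ℝ) ^ (-(e1 p / 2 * t))) * IP := by
        gcongr
        have ht0 : (0 : ℝ) ≤ t := Nat.cast_nonneg t
        have h5 : (2 : ℝ) ^ (-((t : ℝ) / 16)) ≤ (2 : ℝ) ^ (-(e1 p / 2 * t)) := by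
          refine Real.rpow_le_rpow_of_exponent_le (by norm_num) ?_
          nlinarith
        have h6 : (0 : ℝ) < (2 : ℝ) ^ (-(e1 p / 2 * t)) := by positivity
        nlinarith

end Pool.Agent.Helper85.EQ
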